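import Mathlib

/-! Project AAE2 (MP_ae801b_ag): specialisation of some of the variables of a relation. -/

set_option autoImplicit false

namespace Pool.Agent.H51.AAE2

universe u

/-- a nonzero relation in the variables `σ ⊕ τ` stays nonzero after a generic specialisation of
the variables `τ` -/
theorem exists_split {k : Type u} [Field k] {σ τ : Type} (Q : MvPolynomial (σ ⊕ τ) k)
    (hQ : Q ≠ 0) :
    ∃ P : MvPolynomial τ k, P ≠ 0 ∧ ∀ lam : τ → k, MvPolynomial.eval lam P ≠ 0 →
      ∃ F : MvPolynomial σ k, F ≠ 0 ∧ ∀ (Ω : Type u) [CommRing Ω] [Algebra k Ω] (z : σ → Ω),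
        MvPolynomial.aeval (Sum.elim z fun t => algebraMap k Ω (lam t)) Q = 0 →
          MvPolynomial.aeval z F = 0 := by
  set Q' := MvPolynomial.sumAlgEquiv k σ τ Q with hQ'
  have h0 : Q' ≠ 0 := by
    rw [hQ']
    exact (map_ne_zero_iff _ (MvPolynomial.sumAlgEquiv k σ τ).injective).2 hQ
  obtain ⟨α, hα⟩ := MvPolynomial.ne_zero_iff.1 h0
  refine ⟨MvPolynomial.coeff α Q', hα, ?_⟩
  intro lam hlam
  refine ⟨MvPolynomial.map (MvPolynomial.eval lam) Q', ?_, ?_⟩
  · refine MvPolynomial.ne_zero_iff.2 ⟨α, ?_⟩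
    rwa [MvPolynomial.coeff_map]
  · intro Ω _ _ z hz
    have h1 : (((MvPolynomial.aeval z : MvPolynomial σ k →ₐ[k] Ω).comp
        (MvPolynomial.mapAlgHom (MvPolynomial.aeval lam : MvPolynomial τ k →ₐ[k] k))).comp
        (MvPolynomial.sumAlgEquiv k σ τ : MvPolynomial (σ ⊕ τ) k →ₐ[k]
          MvPolynomial σ (MvPolynomial τ k))) =
        MvPolynomial.aeval (Sum.elim z fun t => algebraMap k Ω (lam t)) := by
      apply MvPolynomial.algHom_ext
      rintro (i | t)
      · simp
      · simp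
    have h2 := congrArg (fun g => g Q) h1
    simp only [hz] at h2
    exact h2

end Pool.Agent.H51.AAE2
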