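import Mathlib
import Pool.Agent.H71.AAE.Defs
import Pool.Agent.H71.AAE.G1b
import Pool.Agent.H85.AAE2.Defs
import Pool.Agent.H51.AAE2.Split

/-! Project AAE2 (MP_ae801b_ag), module GENC: pairs of points identified by a generic shear. -/

set_option autoImplicit false

open Polynomial

namespace Pool.Agent.H85.AAE2

open Pool.Agent.H71.AAE

universe u

/-- the two copies of the polynomial ring -/
noncomputable def cp2 (m N : ℕ) (k : Type u) [Field k] (j : Fin 2) :
    MvPolynomial (Fin m) k →ₐ[k] MvPolynomial ((Fin 2 × Fin m) ⊕ Fin N) k :=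
  MvPolynomial.rename fun l => Sum.inl (j, l)

theorem generic_pairs {k : Type u} [Field k] {N m δ : ℕ} (h : 2 * m ≤ N + δ)
    (f : Fin (N + 1) → MvPolynomial (Fin m) k) (e : Fin (δ + 1) ↪ Fin m) :
    ∃ P : MvPolynomial (Fin N × Fin 2) k, P ≠ 0 ∧ ∀ lam : Fin N × Fin 2 → k,
      MvPolynomial.eval lam P ≠ 0 → ∃ F : MvPolynomial (Fin (δ + 1)) k, F ≠ 0 ∧
      ∀ (Ω : Type u) [Field Ω] [Algebra k Ω] (p q : MvPolynomial (Fin m) k →ₐ[k] Ω),
      p (f 0) ≠ q (f 0) → (∀ ρ, p (shear f lam (C ρ)) = q (shear f lam (C ρ))) →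
      MvPolynomial.aeval (fun i => p (MvPolynomial.X (e i))) F = 0 := by
  set g : Fin 2 → MvPolynomial ((Fin 2 × Fin m) ⊕ Fin N) k := fun j => cp2 m N k j (f 0) with hg
  set D := g 0 - g 1 with hD
  set L := Localization.Away D with hL
  set ι : MvPolynomial ((Fin 2 × Fin m) ⊕ Fin N) k →+* L := algebraMap _ L with hι
  set d : L := IsLocalization.Away.invSelf D with hd
  have hdD : ι D * d = 1 := IsLocalization.Away.mul_invSelf D
  set l1 : Fin N → L := fun i => ι (MvPolynomial.X (Sum.inr i)) with hl1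
  set l0 : Fin N → L := fun i => -(ι (cp2 m N k 0 (f i.succ) - cp2 m N k 1 (f i.succ)) * d) -
    l1 i * ι (g 0 + g 1) with hl0
  obtain ⟨Q, hQ, hrel⟩ := exists_rel (k := k) (σ := (Fin 2 × Fin m) ⊕ Fin N)
    (τ := Fin (δ + 1) ⊕ (Fin N × Fin 2)) (by simp; omega) D
    (Sum.elim (fun i => ι (MvPolynomial.X (Sum.inl (0, e i))))
      fun x => if x.2 = 0 then l0 x.1 else l1 x.1)
  obtain ⟨P, hP, hsp⟩ := Pool.Agent.H51.AAE2.exists_split Q hQ
  refine ⟨P, hP, ?_⟩
  intro lam hlam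
  obtain ⟨F, hF, hF2⟩ := hsp lam hlam
  refine ⟨F, hF, ?_⟩
  intro Ω _ _ p q hpq h1
  apply hF2
  set x : (Fin 2 × Fin m) ⊕ Fin N → Ω := Sum.elim (fun y =>
    (![p, q] : Fin 2 → (MvPolynomial (Fin m) k →ₐ[k] Ω)) y.1 (MvPolynomial.X y.2))
    (fun i => algebraMap k Ω (lam (i, 1))) with hx
  have hc : ∀ j b, MvPolynomial.aeval x (cp2 m N k j b) =
      (![p, q] : Fin 2 → (MvPolynomial (Fin m) k →ₐ[k] Ω)) j b := by
    intro j b
    have : (MvPolynomial.aeval x).comp (cp2 m N k j) =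
        (![p, q] : Fin 2 → (MvPolynomial (Fin m) k →ₐ[k] Ω)) j := by
      apply MvPolynomial.algHom_ext
      intro i
      simp [cp2, hx]
    exact congrArg (fun g => g b) this
  have hDe : MvPolynomial.aeval x D = p (f 0) - q (f 0) := by
    rw [hD, map_sub, hg]
    simp only [hc]
    rfl
  obtain ⟨Φ, hΦ⟩ := spec D (T := Ω) x (by rw [hDe]; exact Ne.isUnit (sub_ne_zero.2 hpq))
  have hΦd : (p (f 0) - q (f 0)) * Φ d = 1 := by
    have := congrArg Φ hdD
    rwa [map_mul, hι, hΦ, hDe, map_one] at this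
  have e0 : ∀ b, Φ (ι (cp2 m N k 0 b)) = p b := fun b => by rw [hι, hΦ, hc]; rfl
  have e1 : ∀ b, Φ (ι (cp2 m N k 1 b)) = q b := fun b => by rw [hι, hΦ, hc]; rfl
  have r1 : ∀ i : Fin N, (p (f i.succ) - q (f i.succ)) = -(algebraMap k Ω (lam (i, 0)) +
      algebraMap k Ω (lam (i, 1)) * (p (f 0) + q (f 0))) * (p (f 0) - q (f 0)) := by
    intro i
    have := h1 (MvPolynomial.X i)
    rw [hom_shear_CX, hom_shear_CX] at this
    linear_combination this
  have el1 : ∀ i, Φ (l1 i) = algebraMap k Ω (lam (i, 1)) := by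
    intro i
    show Φ (algebraMap _ _ (MvPolynomial.X (Sum.inr i))) = _
    rw [hΦ, MvPolynomial.aeval_X]
    rfl
  have el0 : ∀ i, Φ (l0 i) = algebraMap k Ω (lam (i, 0)) := by
    intro i
    simp only [hl0, map_mul, map_sub, map_neg, map_add, hg, e0, e1, el1, r1]
    linear_combination ((algebraMap k Ω (lam (i, 0)) +
      algebraMap k Ω (lam (i, 1)) * (p (f 0) + q (f 0)))) * hΦd
  refine rel_spec Φ _ Q hrel _ ?_
  rintro (i | ⟨i, j⟩)
  · show Φ (algebraMap _ _ (MvPolynomial.X (Sum.inl (0, e i)))) = _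
    rw [hΦ, MvPolynomial.aeval_X]
    rfl
  · by_cases hj : j = 0
    · subst hj
      show Φ (if (0 : Fin 2) = 0 then l0 i else l1 i) = algebraMap k Ω (lam (i, 0))
      rw [if_pos rfl, el0]
    · have hj1 : j = 1 := by omega
      subst hj1
      show Φ (if (1 : Fin 2) = 0 then l0 i else l1 i) = algebraMap k Ω (lam (i, 1))
      rw [if_neg hj, el1]

end Pool.Agent.H85.AAE2
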