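import Mathlib
import Pool.Agent.H71.AAE.Defs
import Pool.Agent.H71.AAE.G1b
import Pool.Agent.H71.AAE.G1c
import Pool.Agent.H85.AAE2.Defs
import Pool.Agent.H51.AAE2.Split

/-! Project AAE2 (MP_ae801b_ag), module GEND: ramification of a generic shear. -/

set_option autoImplicit false

open Polynomial

namespace Pool.Agent.H85.AAE2

open Pool.Agent.H71.AAE

universe u

theorem ram_chart {k : Type u} [Field k] {N m δ : ℕ} (h : 2 * m ≤ N + δ)
    (f : Fin (N + 1) → MvPolynomial (Fin m) k) (e : Fin (δ + 1) ↪ Fin m) (l : Fin m) :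
    ∃ P : MvPolynomial (Fin N × Fin 2) k, P ≠ 0 ∧ ∀ lam : Fin N × Fin 2 → k,
      MvPolynomial.eval lam P ≠ 0 → ∃ F : MvPolynomial (Fin (δ + 1)) k, F ≠ 0 ∧
      ∀ (Ω : Type u) [Field Ω] [Algebra k Ω] (θ : MvPolynomial (Fin m) k →ₐ[k] DualNumber Ω),
      TrivSqZeroExt.snd (θ (MvPolynomial.X l)) ≠ 0 →
      TrivSqZeroExt.snd (θ (f 0)) ≠ 0 →
      (∀ ρ, TrivSqZeroExt.snd (θ (shear f lam (C ρ))) = 0) →
      MvPolynomial.aeval (fun i => TrivSqZeroExt.fst (θ (MvPolynomial.X (e i)))) F = 0 := by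
  set D := dd k N l (f 0) with hD
  set L := Localization.Away D with hL
  set ι : MvPolynomial (Cht N l) k →+* L := algebraMap _ L with hι
  set d : L := IsLocalization.Away.invSelf D with hd
  have hdD : ι D * d = 1 := IsLocalization.Away.mul_invSelf D
  set l1 : Fin N → L := fun i => ι (MvPolynomial.X (Sum.inr (Sum.inr i))) with hl1
  set l0 : Fin N → L := fun i => -ι (dd k N l (f i.succ)) * d -
    2 * l1 i * ι (bp k N l (f 0)) with hl0
  have hcard : Fintype.card (Cht N l) < Fintype.card (Fin (δ + 1) ⊕ (Fin N × Fin 2)) := by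
    have h1 : Fintype.card {j : Fin m // j ≠ l} = m - 1 := by
      rw [Fintype.card_subtype_compl]
      simp
    rw [Fintype.card_sum, Fintype.card_sum, Fintype.card_sum, h1, Fintype.card_prod]
    simp only [Fintype.card_fin]
    have := l.isLt
    omega
  obtain ⟨Q, hQ, hrel⟩ := exists_rel (k := k) (σ := Cht N l)
    (τ := Fin (δ + 1) ⊕ (Fin N × Fin 2)) hcard D
    (Sum.elim (fun i => ι (MvPolynomial.X (Sum.inl (e i))))
      fun x => if x.2 = 0 then l0 x.1 else l1 x.1)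
  obtain ⟨P, hP, hsp⟩ := Pool.Agent.H51.AAE2.exists_split Q hQ
  refine ⟨P, hP, ?_⟩
  intro lam hlam
  obtain ⟨F, hF, hF2⟩ := hsp lam hlam
  refine ⟨F, hF, ?_⟩
  intro Ω _ _ θ hl hg h
  apply hF2
  set η := (TrivSqZeroExt.snd (θ (MvPolynomial.X l)))⁻¹ with hη
  have hη1 : TrivSqZeroExt.snd (θ (MvPolynomial.X l)) * η = 1 := mul_inv_cancel₀ hl
  set x : Cht N l → Ω := Sum.elim (fun j => fstH θ (MvPolynomial.X j))
    (Sum.elim (fun j => TrivSqZeroExt.snd (θ (MvPolynomial.X j.1)) * η)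
      (fun i => algebraMap k Ω (lam (i, 1)))) with hx
  have hbp : ∀ b, MvPolynomial.aeval x (bp k N l b) = fstH θ b := by
    intro b
    have : (MvPolynomial.aeval x).comp (bp k N l) = fstH θ := by
      apply MvPolynomial.algHom_ext
      intro i
      simp [bp, hx]
    exact congrArg (fun g => g b) this
  have hxi : ∀ j, MvPolynomial.aeval x (xi k N l j) =
      TrivSqZeroExt.snd (θ (MvPolynomial.X j)) * η := by
    intro j
    by_cases hj : j = l
    · subst hj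
      rw [xi, dif_pos rfl, map_one, hη1]
    · rw [xi, dif_neg hj, MvPolynomial.aeval_X, hx]
      rfl
  have hdd : ∀ b, MvPolynomial.aeval x (dd k N l b) = TrivSqZeroExt.snd (θ b) * η := by
    intro b
    rw [dd, map_sum, snd_theta, Finset.sum_mul]
    refine Finset.sum_congr rfl fun j _ => ?_
    rw [map_mul, hxi, hbp]
    ring
  have hη0 : η ≠ 0 := inv_ne_zero hl
  have hDe : MvPolynomial.aeval x D = TrivSqZeroExt.snd (θ (f 0)) * η := hdd _
  obtain ⟨Φ, hΦ⟩ := spec D (T := Ω) x (by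
    rw [hDe]
    exact Ne.isUnit (mul_ne_zero hg hη0))
  have hΦd : TrivSqZeroExt.snd (θ (f 0)) * η * Φ d = 1 := by
    have := congrArg Φ hdD
    rwa [map_mul, hι, hΦ, hDe, map_one] at this
  have h1 : ∀ i : Fin N, TrivSqZeroExt.snd (θ (f i.succ)) = -(algebraMap k Ω (lam (i, 0)) +
      2 * algebraMap k Ω (lam (i, 1)) * fstH θ (f 0)) * TrivSqZeroExt.snd (θ (f 0)) := by
    intro i
    have h2 := h (MvPolynomial.X i)
    rw [hom_shear_CX, TrivSqZeroExt.snd_add, TrivSqZeroExt.snd_add,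
      TrivSqZeroExt.algebraMap_eq_inl', TrivSqZeroExt.algebraMap_eq_inl', pow_two,
      TrivSqZeroExt.snd_mul, TrivSqZeroExt.snd_mul, TrivSqZeroExt.snd_mul] at h2
    simp only [TrivSqZeroExt.fst_inl, TrivSqZeroExt.snd_inl, smul_eq_mul, smul_zero,
      MulOpposite.smul_eq_mul_unop, MulOpposite.unop_op, add_zero] at h2
    rw [fstH_apply]
    linear_combination h2
  have el1 : ∀ i, Φ (l1 i) = algebraMap k Ω (lam (i, 1)) := by
    intro i
    show Φ (algebraMap _ _ (MvPolynomial.X (Sum.inr (Sum.inr i)))) = _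
    rw [hΦ, MvPolynomial.aeval_X]
    rfl
  have el0 : ∀ i, Φ (l0 i) = algebraMap k Ω (lam (i, 0)) := by
    intro i
    have e2 : Φ 2 = 2 := map_ofNat Φ 2
    simp only [hl0, map_sub, map_mul, map_neg, el1, e2]
    rw [hι, hΦ, hΦ, hdd, hbp, h1]
    linear_combination (algebraMap k Ω (lam (i, 0)) +
      2 * algebraMap k Ω (lam (i, 1)) * fstH θ (f 0)) * hΦd
  refine rel_spec Φ _ Q hrel _ ?_
  rintro (i | ⟨i, j⟩)
  · show Φ (algebraMap _ _ (MvPolynomial.X (Sum.inl (e i)))) = _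
    rw [hΦ, MvPolynomial.aeval_X]
    rfl
  · by_cases hj : j = 0
    · subst hj
      show Φ (if (0 : Fin 2) = 0 then l0 i else l1 i) = algebraMap k Ω (lam (i, 0))
      rw [if_pos rfl, el0]
    · have hj1 : j = 1 := by omega
      subst hj1
      show Φ (if (1 : Fin 2) = 0 then l0 i else l1 i) = algebraMap k Ω (lam (i, 1))
      rw [if_neg hj, el1]

theorem generic_ram {k : Type u} [Field k] {N m δ : ℕ} (h : 2 * m ≤ N + δ)
    (f : Fin (N + 1) → MvPolynomial (Fin m) k) (e : Fin (δ + 1) ↪ Fin m) :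
    ∃ P : MvPolynomial (Fin N × Fin 2) k, P ≠ 0 ∧ ∀ lam : Fin N × Fin 2 → k,
      MvPolynomial.eval lam P ≠ 0 → ∃ F : MvPolynomial (Fin (δ + 1)) k, F ≠ 0 ∧
      ∀ (Ω : Type u) [Field Ω] [Algebra k Ω] (θ : MvPolynomial (Fin m) k →ₐ[k] DualNumber Ω),
      TrivSqZeroExt.snd (θ (f 0)) ≠ 0 →
      (∀ ρ, TrivSqZeroExt.snd (θ (shear f lam (C ρ))) = 0) →
      MvPolynomial.aeval (fun i => TrivSqZeroExt.fst (θ (MvPolynomial.X (e i)))) F = 0 := by
  choose P hP h using fun l => ram_chart h f e l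
  refine ⟨∏ l, P l, Finset.prod_ne_zero_iff.2 fun l _ => hP l, ?_⟩
  intro lam hlam
  rw [map_prod] at hlam
  choose F hF hF2 using fun l => h l lam fun h0 => hlam (Finset.prod_eq_zero (Finset.mem_univ l) h0)
  refine ⟨∏ l, F l, Finset.prod_ne_zero_iff.2 fun l _ => hF l, ?_⟩
  intro Ω _ _ θ hg h2
  obtain ⟨l, hl⟩ : ∃ l, TrivSqZeroExt.snd (θ (MvPolynomial.X l)) ≠ 0 := by
    by_contra hcon
    push Not at hcon
    apply hg
    rw [snd_theta]
    refine Finset.sum_eq_zero fun j _ => ?_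
    rw [hcon, zero_mul]
  rw [map_prod]
  exact Finset.prod_eq_zero (Finset.mem_univ l) (hF2 l Ω θ hl hg h2)

end Pool.Agent.H85.AAE2
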